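import Mathlib
import Pool.Agent.Helper97.MTDefs
import Pool.Agent.Helper97.MazMain

/-!
# Mazoyer's hypothesis fails

There are a countable language, a complete `ℵ₀`-categorical and `ω`-stable theory `T` and a
strongly minimal type `p` over the empty set such that no bound `n` as asked for in Mazoyer's
hypothesis exists, even if the finite tuple `b` is required to be a single element, and whatever
model of `T` (for instance a saturated one) one works in.

The structure: let `E = V × H` where `V` is an infinite-dimensional vector space over `F₂` and `H`
is the `F₂`-vector space with basis an infinite set `I`.  The weight of a vector is the number of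
basis vectors in its `H`-component.  The universe is `U × U` where `U` is the set of vectors of
weight at most three; the relations are the orbits of the group of linear automorphisms of `E`
which preserve the weight.  The type `p` is the type of `(v, 0)` for `v` a nonzero vector of
weight zero.  The algebraically closed set `A` comes from the stars of a `2 × (n + 1)` ladder
graph with four half-edges at its corners, and `b` is a pair of vectors of weight two.
-/

open FirstOrder FirstOrder.Language Cardinal Set

namespace Pool.Agent.Results.MP_5076ba_lc.MazoyerFails

open Pool.Agent.Helper97.MT Pool.Agent.Helper97.Canon Pool.Agent.Helper97.Maz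

/-- The negation of Mazoyer's hypothesis, in a strong form (`b` is a single element, and the
configuration exists in every model of the theory). -/
theorem result :
    ∃ (L : FirstOrder.Language.{0, 0}) (T : L.Theory) (p : T.CompleteType (Fin 1)),
      L.card ≤ ℵ₀ ∧ T.IsComplete ∧ Cardinal.Categorical (ℵ₀ : Cardinal.{0}) T ∧
      OmegaStable T ∧ StronglyMinimalType T p ∧
      ∀ (n : ℕ) (M : Theory.ModelType.{0, 0, 0} T), ∃ (c b : M) (A : Set M),
        Realizes M p c ∧ acl L A = A ∧ c ∈ acl L (A ∪ {b}) ∧
        ∀ A' : Set M, A' ⊆ A → A'.encard ≤ n → c ∉ acl L (A' ∪ {b}) := by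
  refine ⟨canLang Gr W, (canLang Gr W).completeTheory W, p₁, card_canLang finite_rel,
    completeTheory.isComplete _ _, categorical finite_rel, omegaStable, smt_p₁, ?_⟩
  intro n M
  obtain ⟨j, -⟩ := exists_embed finite_rel M ∅ Set.countable_empty
  refine ⟨j (cW v₁), j (bW (n + 1) (Nat.succ_pos n)), j '' AW (n + 1), ?_, ?_, ?_, ?_⟩
  · intro φ hφ
    rw [mem_p₁] at hφ
    exact (j.map_formula φ (fun _ => cW v₁)).2 hφ
  · rw [acl_image, acl_AW]
  · rw [← Set.image_singleton, ← Set.image_union, acl_image]
    exact ⟨_, cW_mem (n + 1) (Nat.succ_pos n), rfl⟩
  · intro A' hA' hc h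
    have h1 : j '' (j ⁻¹' A') = A' := by
      rw [Set.image_preimage_eq_iff]
      exact hA'.trans (Set.image_subset_range _ _)
    rw [← h1, ← Set.image_singleton, ← Set.image_union, acl_image] at h
    obtain ⟨c, hc', hcc⟩ := h
    have h2 : c = cW v₁ := j.injective hcc
    subst h2
    refine cW_notMem n (j ⁻¹' A') ?_ ?_ hc'
    · intro a ha
      obtain ⟨a', ha', haa⟩ := hA' ha
      have : a' = a := j.injective haa
      rwa [← this]
    · rw [← j.injective.injOn.encard_image, h1]
      exact hc

end Pool.Agent.Results.MP_5076ba_lc.MazoyerFails
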